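import Pool.Agent.H9.CoH3

namespace Pool.Agent.Results.MP_ce3880_al.FinGen
open Pool.Agent.H9.CoH1 Pool.Agent.H9.CoH2 Pool.Agent.H9.CoH3

/-- A group is co-hopfian if each of its injective endomorphisms is surjective. -/
def CoHopfian (H : Type) [Group H] : Prop :=
  ∀ f : H →* H, Function.Injective f → Function.Surjective f

theorem result : ∃ (G : Type) (_ : Group G) (T K : Subgroup G),
    Group.FG G ∧ Group.FG T ∧ Group.FG K ∧ T.index = 2 ∧ K ≤ T ∧ K.FiniteIndex ∧
      CoHopfian T ∧ ¬ CoHopfian G ∧ ¬ CoHopfian K := by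
  let κ : G →* Multiplicative (ZMod 2 × ZMod 2) := MonoidHom.mk'
    (fun g => Multiplicative.ofAdd (chi g.m, (g.n : ZMod 2))) (fun a b => by
      rw [← ofAdd_add]; simp [chi_act])
  have hκ : ∀ g, g ∈ κ.ker ↔ chi g.m = 0 ∧ (g.n : ZMod 2) = 0 := fun g => by
    simp [κ, MonoidHom.mem_ker]
  have hidx : T.index = 2 := by
    rw [Subgroup.index_eq_two_iff]
    refine ⟨u0⁻¹, fun b => ?_⟩
    by_cases h : b ∈ T
    · exact Or.inr ⟨h, fun h' => u0_not (by simpa using (T.mul_mem_cancel_left h).1 h')⟩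
    · exact Or.inl ⟨(mul_inv_mem h u0_not).2, h⟩
  have hG : Group.FG G := by
    classical
    obtain ⟨A, hA⟩ := fg
    refine ⟨⟨insert u0 A, ?_⟩⟩
    have h1 : ∀ g ∈ T, g ∈ Subgroup.closure ((insert u0 A : Finset G) : Set G) := by
      intro g hg
      have hg' : g ∈ Subsemigroup.closure (A : Set G) := by rw [hA]; exact hg
      clear hg
      induction hg' using Subsemigroup.closure_induction with
      | mem x hx => exact Subgroup.subset_closure (by simp [Finset.mem_coe.1 hx])
      | mul x y _ _ hx hy => exact Subgroup.mul_mem _ hx hy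
    rw [eq_top_iff]
    intro g _
    by_cases h : g ∈ T
    · exact h1 g h
    · have := Subgroup.mul_mem _ (Subgroup.subset_closure (k := ((insert u0 A : Finset G) : Set G))
        (show u0 ∈ _ by simp)) (h1 _ (mul_inv_mem u0_not h).1)
      simpa using this
  haveI : T.FiniteIndex := ⟨by rw [hidx]; decide⟩
  refine ⟨G, inferInstance, T, κ.ker, hG, inferInstance, inferInstance, hidx, ?_, inferInstance,
    cohopf, fun h => dbl_not_surj (h dbl dbl_inj), fun h => ?_⟩
  · intro g hg
    rw [mem_T, ((hκ g).1 hg).1, ((hκ g).1 hg).2]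
  · have hm : ∀ g : κ.ker, (dbl.comp κ.ker.subtype) g ∈ κ.ker := fun g => by
      rw [hκ]
      exact ⟨by
        show chi ((2 : R) • g.1.m) = 0
        rw [chi_smul, rho_two, zero_mul], ((hκ g).1 g.2).2⟩
    obtain ⟨g, hg⟩ := h ((dbl.comp κ.ker.subtype).codRestrict _ hm)
      (fun a b e => Subtype.ext (dbl_inj (congrArg Subtype.val e)))
      ⟨tau v01, (hκ _).2 ⟨AddMonoidHom.mem_ker.1 v01.2, by simp⟩⟩
    have h1 : 2 * g.1.m 0 = (v01 : ℤ →₀ R) 0 := congrArg (fun x : κ.ker => x.1.m 0) hg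
    have h2 := congrArg rho h1
    rw [map_mul, rho_two, zero_mul] at h2
    simp [v01] at h2

end Pool.Agent.Results.MP_ce3880_al.FinGen
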